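import Mathlib
import Pool.Agent.H353R6.QF

/-!
# The moduli space of quadratic endomorphisms of `ℙ^N` is rational for every `N ≥ 1`

`K N` is the field of rational functions on the space of quadratic homogeneous maps
`ℂ^(N+1) → ℂ^(N+1)` which take equal values at conjugate points (conjugation by `GL_(N+1)` and
multiplication by nonzero scalars); this is the function field of `M^N_2`.
-/

namespace Pool.Agent.Results.MP_82c165_ag.QuadraticMaps

open H353R6.Quad

theorem result (N : ℕ) (hN : 1 ≤ N) : Nonempty (K N ≃ₐ[ℂ] FractionRing (MvPolynomial
    (Fin ((N + 2).choose 2 * (N + 1) - 1 - N * (N + 2))) ℂ)) :=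
  main N hN

end Pool.Agent.Results.MP_82c165_ag.QuadraticMaps
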